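import Pool.Agent.V11300.PR.Cycle

/-!
# MP_8d137a_pr, Q1 (negative answer)

For the alphabet of size `4` and words of length `3` there are probability vectors arbitrarily close
to the uniform one whose head-to-head relation has a directed 3-cycle.
-/

namespace Pool.Agent.Results.MP_8d137a_pr.CycleNearUniform

open Pool.Agent.V11300.PR

theorem result :
    (∀ ε : ℝ, 0 < ε → ∃ v : ProbVec (Fin 4), (∀ i, 0 < v.p i) ∧ (∀ i, |v.p i - 1 / 4| < ε) ∧
      1 / 2 < winProb v [0, 1, 0] [2, 3, 2] ∧ 1 / 2 < winProb v [2, 3, 2] [1, 2, 1] ∧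
      1 / 2 < winProb v [1, 2, 1] [0, 1, 0]) ∧
    ¬ (∀ s k : ℕ, 2 ≤ s → 2 ≤ k → ∃ ε : ℝ, 0 < ε ∧ ∀ v : ProbVec (Fin s),
      (∀ i, |v.p i - 1 / (s : ℝ)| < ε) →
      ¬ ∃ A B C : List (Fin s), A.length = k ∧ B.length = k ∧ C.length = k ∧
        1 / 2 < winProb v A B ∧ 1 / 2 < winProb v B C ∧ 1 / 2 < winProb v C A) := by
  refine ⟨exists_cycle, fun h => ?_⟩
  obtain ⟨ε, hε, h⟩ := h 4 3 (by norm_num) (by norm_num)
  obtain ⟨v, _, h2, h3, h4, h5⟩ := exists_cycle ε hε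
  exact h v (fun i => by simpa using h2 i)
    ⟨[0, 1, 0], [2, 3, 2], [1, 2, 1], rfl, rfl, rfl, h3, h4, h5⟩

end Pool.Agent.Results.MP_8d137a_pr.CycleNearUniform
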